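import Pool.Agent.helper99.ZR.Spec
import Pool.Agent.helper43.Cant.RW

/-!
# Project zr (MP_3c0a64_an), row DI2: the cells are in `U`
-/

set_option autoImplicit false
set_option linter.unusedVariables false

namespace Pool.Agent.ZR

open Finset
open Pool.Agent.helper32.Cant
open Pool.Agent.GA (nrm chi ch St sg flp Psi rc ph pot rpot far nc gf ncs gfs good mj om pick pat et kap mult)
open scoped ENNReal

noncomputable section

/-- a point of the Cantor set with the digits of `w` -/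
theorem DI2_word {n : ℕ} (w : Word n) : ∃ e : ℝ, e + 1 / 2 ∈ cantorSet ∧ |e| ≤ 1 / 2 ∧
    |3 ^ n * e - (E w : ℝ)| ≤ 1 / 2 := by
  set b : ℕ → Bool := fun i => if h : i < n then w ⟨i, h⟩ else false with hb
  have hp : pre b n = w := by
    funext i
    show b (i : ℕ) = w i
    rw [hb]
    simp only [i.2, dif_pos]
  refine ⟨ept b, ept_mem b, abs_ept_le b, ?_⟩
  have h := ept_approx b n
  rw [hp] at h
  exact h

/-- the main estimate -/
theorem DI2_est {n k₁ : ℕ} {o lam δ x s e p : ℝ} {ctr R d : ℕ} {Ew : ℤ} (hlam : 0 < lam)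
    (hk : k₁ ≤ 2 * n) (hδ : 4 * lam / 3 ^ n + lam / 3 ^ k₁ < δ) (hR : R < 2 * 3 ^ n)
    (hx : |x - (o + lam * ((ctr : ℝ) / 3 ^ n))| ≤ lam / 3 ^ n)
    (hs : |(1 + s) - (R : ℝ) / 3 ^ n| ≤ 1 / 3 ^ n) (he : |e| ≤ 1 / 2)
    (hE : |3 ^ n * e - (Ew : ℝ)| ≤ 1 / 2) (hd : d < 3 ^ (2 * n - k₁))
    (hp1 : o + lam * (((3 ^ n * (ctr : ℤ) + (R : ℤ) * Ew - (d : ℤ) : ℤ) : ℝ)) / 3 ^ (2 * n) ≤ p)
    (hp2 : p < o + lam * (((3 ^ n * (ctr : ℤ) + (R : ℤ) * Ew - (d : ℤ) : ℤ) : ℝ) + 1) / 3 ^ (2 * n)) :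
    |p - (x + lam * (1 + s) * e)| < δ := by
  have h3 : (0 : ℝ) < 3 ^ n := by positivity
  have h1 : (1 : ℝ) ≤ 3 ^ n := one_le_pow₀ (by norm_num)
  set q : ℝ := 1 / 3 ^ n with hq
  have hq0 : 0 < q := by positivity
  have hq1 : q ≤ 1 := by
    rw [hq, div_le_one h3]
    exact h1
  have hqq : (1 : ℝ) / 3 ^ (2 * n) = q * q := by
    rw [hq, two_mul, pow_add]
    field_simp
  set ρ : ℝ := (R : ℝ) * q with hρ
  have hρ0 : 0 ≤ ρ := by positivity
  have hρ2 : ρ ≤ 2 := by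
    rw [hρ, hq, mul_one_div, div_le_iff₀ h3]
    have : ((R : ℕ) : ℝ) < ((2 * 3 ^ n : ℕ) : ℝ) := by exact_mod_cast hR
    push_cast at this
    exact this.le
  set ε : ℝ := (Ew : ℝ) * q with hε
  have hεe : |e - ε| ≤ q / 2 := by
    have : e - ε = q * (3 ^ n * e - (Ew : ℝ)) := by
      rw [hε, hq]
      field_simp
    rw [this, abs_mul, abs_of_pos hq0]
    nlinarith
  have hs' : |(1 + s) - ρ| ≤ q := by
    have : ρ = (R : ℝ) / 3 ^ n := by rw [hρ, hq, mul_one_div]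
    rw [this]
    exact hs
  have hx' : |x - (o + lam * ((ctr : ℝ) * q))| ≤ lam * q := by
    have e1 : (ctr : ℝ) * q = (ctr : ℝ) / 3 ^ n := by rw [hq, mul_one_div]
    have e2 : lam * q = lam / 3 ^ n := by rw [hq, mul_one_div]
    rw [e1, e2]
    exact hx
  -- the position of `p`
  have hY : ((3 ^ n * (ctr : ℤ) + (R : ℤ) * Ew - (d : ℤ) : ℤ) : ℝ) * (q * q)
      = (ctr : ℝ) * q + ρ * ε - (d : ℝ) * (q * q) := by
    push_cast
    rw [hρ, hε]
    have : (3 : ℝ) ^ n * q = 1 := by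
      rw [hq]
      field_simp
    calc ((3 : ℝ) ^ n * (ctr : ℝ) + (R : ℝ) * (Ew : ℝ) - (d : ℝ)) * (q * q)
        = (3 ^ n * q) * ((ctr : ℝ) * q) + (R : ℝ) * q * ((Ew : ℝ) * q) - (d : ℝ) * (q * q) := by ring
      _ = _ := by rw [this, one_mul]
  have hdq : (d : ℝ) * (q * q) ≤ 1 / 3 ^ k₁ := by
    rw [← hqq, mul_one_div, div_le_div_iff₀ (by positivity) (by positivity), one_mul]
    have hd' : ((d : ℕ) : ℝ) ≤ (3 : ℝ) ^ (2 * n - k₁) := by exact_mod_cast hd.le
    calc (d : ℝ) * 3 ^ k₁ ≤ 3 ^ (2 * n - k₁) * 3 ^ k₁ := by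
          exact mul_le_mul_of_nonneg_right hd' (by positivity)
      _ = 3 ^ (2 * n) := by
          rw [← pow_add]
          congr 1
          omega
  have hd0 : 0 ≤ (d : ℝ) * (q * q) := by positivity
  set Y : ℝ := ((3 ^ n * (ctr : ℤ) + (R : ℤ) * Ew - (d : ℤ) : ℤ) : ℝ) with hYdef
  have hp1' : o + lam * (Y * (q * q)) ≤ p := by
    have : o + lam * (Y * (q * q)) = o + lam * Y / 3 ^ (2 * n) := by
      rw [← hqq]
      ring
    rw [this]
    exact hp1
  have hp2' : p < o + lam * (Y * (q * q)) + lam * (q * q) := by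
    have : o + lam * (Y * (q * q)) + lam * (q * q) = o + lam * (Y + 1) / 3 ^ (2 * n) := by
      rw [← hqq]
      ring
    rw [this]
    exact hp2
  rw [hY] at hp1' hp2'
  have hmul : |ρ * ε - (1 + s) * e| ≤ 3 / 2 * q := by
    have e1 : ρ * ε - (1 + s) * e = -(ρ * (e - ε)) - ((1 + s) - ρ) * e := by ring
    rw [e1]
    refine le_trans (abs_sub _ _) ?_
    rw [abs_neg, abs_mul ρ, abs_mul (1 + s - ρ), abs_of_nonneg hρ0]
    have m1 : ρ * |e - ε| ≤ 2 * (q / 2) :=
      mul_le_mul hρ2 hεe (abs_nonneg _) (by norm_num)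
    have m2 : |1 + s - ρ| * |e| ≤ q * (1 / 2) :=
      mul_le_mul hs' he (abs_nonneg _) hq0.le
    linarith
  have hqlam : lam * (q * q) ≤ lam * q := by
    apply mul_le_mul_of_nonneg_left _ hlam.le
    nlinarith
  have hδ' : 4 * (lam * q) + lam * (1 / 3 ^ k₁) < δ := by
    have e1 : 4 * (lam * q) = 4 * lam / 3 ^ n := by
      rw [hq]
      ring
    have e2 : lam * (1 / 3 ^ k₁) = lam / 3 ^ k₁ := by rw [mul_one_div]
    rw [e1, e2]
    exact hδ
  have hldq : lam * ((d : ℝ) * (q * q)) ≤ lam * (1 / 3 ^ k₁) :=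
    mul_le_mul_of_nonneg_left hdq hlam.le
  have hldq0 : 0 ≤ lam * ((d : ℝ) * (q * q)) := mul_nonneg hlam.le hd0
  have hm1 : lam * (ρ * ε - (1 + s) * e) ≤ lam * (3 / 2 * q) :=
    mul_le_mul_of_nonneg_left (abs_le.mp hmul).2 hlam.le
  have hm2 : lam * (-(3 / 2 * q)) ≤ lam * (ρ * ε - (1 + s) * e) :=
    mul_le_mul_of_nonneg_left (abs_le.mp hmul).1 hlam.le
  obtain ⟨x1, x2⟩ := abs_le.mp hx'
  have hlq : 0 < lam * q := mul_pos hlam hq0
  rw [abs_lt]
  constructor
  · nlinarith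
  · nlinarith

theorem DI2 : DI2_stmt := by
  intro n k₁ X _ c U o lam δ hlam hk hδ H
  classical
  have : NeZero (3 ^ (2 * n)) := ⟨pow_ne_zero _ (by norm_num)⟩
  set G : Finset (ZMod (3 ^ (2 * n))) := univ.filter (fun t =>
    ∃ (w : Word n) (z : X), (um c (0, w) z - t).val < 3 ^ (2 * n - k₁)) with hG
  refine ⟨G, ?_, ?_⟩
  · intro t ht
    rw [hG, mem_filter]
    exact ⟨mem_univ _, ht⟩
  · have key : ∀ t ∈ G, ∃ T : ℤ, ((T : ℤ) : ZMod (3 ^ (2 * n))) = t ∧
        Set.Ico (o + lam * (T : ℝ) / 3 ^ (2 * n)) (o + lam * ((T : ℝ) + 1) / 3 ^ (2 * n)) ⊆ U := by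
      intro t ht
      obtain ⟨-, w, z, hd⟩ := mem_filter.mp ht
      obtain ⟨x, s, hs, hx, hsR⟩ := H z
      obtain ⟨e, hec, he, hE⟩ := DI2_word w
      set d : ℕ := (um c (0, w) z - t).val with hdd
      refine ⟨3 ^ n * (c.ctr z : ℤ) + (c.R z : ℤ) * E w - (d : ℤ), ?_, ?_⟩
      · have h1 : ((d : ℕ) : ZMod (3 ^ (2 * n))) = um c (0, w) z - t := by
          rw [hdd]
          exact ZMod.natCast_zmod_val _
        have h2 : um c (0, w) z
            = ((3 ^ n * (c.ctr z : ℤ) + (c.R z : ℤ) * E w : ℤ) : ZMod (3 ^ (2 * n))) := by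
          show ((3 ^ n * (c.ctr z : ℤ) + (c.R z : ℤ) * E w : ℤ) : ZMod (3 ^ (2 * n))) + 0 = _
          rw [add_zero]
        rw [Int.cast_sub, Int.cast_natCast, h1, ← h2]
        ring
      · intro p hp
        have hest := DI2_est (n := n) (k₁ := k₁) (o := o) (lam := lam) (δ := δ) (x := x) (s := s)
          (e := e) (p := p) (ctr := c.ctr z) (R := c.R z) (d := d) (Ew := E w) hlam hk hδ (c.hi z)
          hx hsR he hE hd hp.1 hp.2
        have h5 := hs.2.2 (e + 1 / 2) hec p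
        apply h5
        have : e + 1 / 2 - 1 / 2 = e := by ring
        rw [this]
        exact hest
    choose! T hT1 hT2 using key
    set I : ZMod (3 ^ (2 * n)) → Set ℝ := fun t =>
      Set.Ico (o + lam * (T t : ℝ) / 3 ^ (2 * n)) (o + lam * ((T t : ℝ) + 1) / 3 ^ (2 * n)) with hI
    have h3 : (0 : ℝ) < 3 ^ (2 * n) := by positivity
    have hdisj : (G : Set (ZMod (3 ^ (2 * n)))).PairwiseDisjoint I := by
      intro t ht t' ht' hne
      have hTne : T t ≠ T t' := by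
        intro h
        apply hne
        rw [← hT1 t ht, ← hT1 t' ht', h]
      have gen : ∀ a b : ℤ, a < b → Disjoint
          (Set.Ico (o + lam * (a : ℝ) / 3 ^ (2 * n)) (o + lam * ((a : ℝ) + 1) / 3 ^ (2 * n)))
          (Set.Ico (o + lam * (b : ℝ) / 3 ^ (2 * n)) (o + lam * ((b : ℝ) + 1) / 3 ^ (2 * n))) := by
        intro a b hab
        rw [Set.disjoint_left]
        intro p hp hp'
        have h1 : (a : ℝ) + 1 ≤ b := by exact_mod_cast hab
        have h2 : o + lam * ((a : ℝ) + 1) / 3 ^ (2 * n) ≤ o + lam * (b : ℝ) / 3 ^ (2 * n) := by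
          have : lam * ((a : ℝ) + 1) ≤ lam * b := mul_le_mul_of_nonneg_left h1 hlam.le
          have := div_le_div_of_nonneg_right this h3.le
          linarith
        linarith [hp.2, hp'.1]
      rcases lt_or_gt_of_ne hTne with h | h
      · exact gen _ _ h
      · exact (gen _ _ h).symm
    have hmeas : ∀ t ∈ G, MeasurableSet (I t) := fun t _ => measurableSet_Ico
    have hvol : ∀ t ∈ G, MeasureTheory.volume (I t) = ENNReal.ofReal (lam / 3 ^ (2 * n)) := by
      intro t _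
      rw [hI]
      simp only
      rw [Real.volume_Ico]
      congr 1
      field_simp
      ring
    have hsum := MeasureTheory.measure_biUnion_finset (μ := MeasureTheory.volume) hdisj hmeas
    have hsub : (⋃ t ∈ G, I t) ⊆ U := by
      intro p hp
      rw [Set.mem_iUnion₂] at hp
      obtain ⟨t, ht, hpt⟩ := hp
      exact hT2 t ht hpt
    calc ENNReal.ofReal (lam * G.card / 3 ^ (2 * n))
        = ∑ t ∈ G, MeasureTheory.volume (I t) := by
          rw [Finset.sum_congr rfl hvol, Finset.sum_const, nsmul_eq_mul,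
            ← ENNReal.ofReal_natCast, ← ENNReal.ofReal_mul (by positivity)]
          congr 1
          ring
      _ = MeasureTheory.volume (⋃ t ∈ G, I t) := hsum.symm
      _ ≤ MeasureTheory.volume U := MeasureTheory.measure_mono hsub

end

end Pool.Agent.ZR
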